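import Pool.Agent.H56.ER2.Targets

/-!
# er2 board, PPR
-/

set_option autoImplicit false

namespace Pool.Agent.H11.ER2

open Pool.Agent.H48.ER Pool.Agent.H52.ER2 Pool.Agent.H66.ER2 Pool.Agent.H56.ER2

theorem pf_PPR (hPPC : T_PPC) (hPPX : T_PPX) : T_PPR := by
  intro V G v c c' s t r R D hG hR hr hcR hc'R hcc hcs hct hvR hvc hvc' hvR' hD hvD hcD hc'D hDc
    hDv hDR
  let Z : Set V := {w | w ∈ R ∨ ∃ u ∈ R, G.Adj w u}
  obtain ⟨k, d, y, T, hT, hTD, hTv, hTZ⟩ := hPPC V G v D Z hD hDv hDR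
  have hdT : d ∈ T := hT.left_mem
  have hyT : y ∈ T := hT.right_mem
  have hyR : y ∉ R := by
    intro hy
    rcases Nat.eq_zero_or_pos k with hk | hk
    · subst hk
      have h1 := hT.eq_of_zero.1
      have h2 := (hTv d hdT).2 rfl
      rw [h1] at h2
      exact hvR' y hy h2
    · obtain ⟨g, g0, gk, gi, ga, gR⟩ := hT
      have h1 : g (k - 1) ∈ T := by
        rw [gR]
        exact ⟨k - 1, by omega, rfl⟩
      have h2 : G.Adj (g (k - 1)) y := by
        rw [← gk]
        exact (ga (k - 1) k (by omega) le_rfl).2 (Or.inl (by omega))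
      have h3 := (hTZ _ h1).1 (Or.inr ⟨y, hy, h2⟩)
      rw [h3] at h2
      exact G.loopless.irrefl _ h2
  have hdis : Disjoint T R := by
    rw [Set.disjoint_left]
    intro w hw hwR
    have h := (hTZ w hw).1 (Or.inl hwR)
    rw [h] at hwR
    exact hyR hwR
  have hy : ∀ w ∈ T, (∃ u ∈ R, G.Adj w u) ↔ w = y := by
    intro w hw
    constructor
    · intro h
      exact (hTZ w hw).1 (Or.inr h)
    · intro h
      rcases (hTZ w hw).2 h with h' | h'
      · rw [h] at h'
        exact absurd h' hyR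
      · exact h'
  obtain ⟨a, b, n, P, h1, h2, h3, h4, h5, h6⟩ := hPPX V G v c c' s t d y r k R T hG hR hr hcR hc'R
    hcc hcs hct hvR hvc hvc' hvR' hT hdis (fun h => hvD (hTD h)) (fun h => hcD (hTD h))
    (fun h => hc'D (hTD h)) (fun w hw => hDc w (hTD hw)) hTv hy
  refine ⟨a, b, n, P, h1, h2, h3, h4, ?_, h6⟩
  rw [h5]
  exact Set.insert_subset_insert hTD

end Pool.Agent.H11.ER2
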